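import Pool.Agent.Helper22.EL.Oct61
import Pool.Agent.Helper53.EL.Td2N

/-!
# Project EL (MP_fb29e9_nt), block C, closed
-/

set_option autoImplicit false

namespace Pool.Agent.Helper36.EL

open Pool.Agent.Helper22.D3 (WP4)

/-- block C (the ranges; uses `td2N`, `WP4`, `oct_gen`) -/
theorem octAllN61 (h4 : WP4) : OctAllN (61 / 98) :=
  octAllN61_of (fun _ _ _ _ hB hω hc => td2N hB hω hc) h4

end Pool.Agent.Helper36.EL
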